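import Pool.Agent.L7h70.SB.Stm4
import Pool.Agent.Y708.QE.Gr

set_option autoImplicit false
set_option linter.unusedSectionVars false

/-! Project SB: the space of `C¹` conformal factors is a Baire space (`S_BAI1`). -/

open Set Filter Topology MeasureTheory
open scoped Real ContDiff UniformConvergence
open Pool.Agent.Y262.QE Pool.Agent.Y264.QR Pool.Agent.Y708.QE

noncomputable section

namespace Pool.Agent.L7h50.SB

open Pool.Agent.L7h70.SB

variable {M : Type} [MetricSpace M] [CompactSpace M] [MeasurableSpace M] [BorelSpace M]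
  {μ : Measure M} {D : Data M}

lemma ψ_mem (hD : D.IsSurf μ) {j : Fin D.N} {z : ℂ} (hz : z ∈ D.T j) :
    D.ψ j z ∈ D.U j ∧ D.φ j (D.ψ j z) = z := by
  obtain ⟨x, hx, rfl⟩ := hz
  rw [hD.left j x hx]
  exact ⟨hx, rfl⟩

/-- the differential in a chart in terms of the gradient -/
lemma exB (hD : D.IsSurf μ) (j : Fin D.N) (z : ℂ) (hz : z ∈ D.T j) :
    ∃ B : ℂ →L[ℝ] ℂ, (∀ v, ‖B v‖ = ‖D.A j z v‖) ∧ ∀ F : M → ℝ, D.C1 F →
      fderiv ℝ (fun y => F (D.ψ j y)) z = (innerSL ℝ (D.gr F (D.ψ j z))).comp B := by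
  obtain ⟨hx, hzx⟩ := ψ_mem hD hz
  obtain ⟨k, hk⟩ := pc_ex hD (D.ψ j z)
  refine ⟨(D.A k (D.φ k (D.ψ j z))).comp
    (fderiv ℝ (fun y => D.φ k (D.ψ j y)) (D.φ j (D.ψ j z))), fun v => ?_, fun F hF => ?_⟩
  · have h1 := (hD.tr j k _ hx hk.1).2 v
    rw [ContinuousLinearMap.comp_apply, h1, hzx]
  · have h1 := dc_comp hD hF hx hk.1
    have h2 : D.dc j F (D.ψ j z) = fderiv ℝ (fun y => F (D.ψ j y)) z := by
      unfold Data.dc
      rw [hzx]
    rw [← h2, h1]
    ext v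
    rw [ContinuousLinearMap.comp_apply, ContinuousLinearMap.comp_apply, ContinuousLinearMap.comp_apply,
      innerSL_apply_apply, gr_eq hk]
    unfold Data.gc
    rw [inner_grd, inv_apply' (hD.det k _ (mem_T hk.1))]

/-- limits of `C¹` functions -/
theorem limit (hD : D.IsSurf μ) {ι : Type} {l : Filter ι} [NeBot l] {F : ι → M → ℝ} (hF : ∀ n, D.C1 (F n))
    {g : M → ℝ} {G : M → ℂ} (h1 : ∀ x, Tendsto (fun n => F n x) l (𝓝 (g x)))
    (h2 : TendstoUniformly (fun n => D.gr (F n)) G l) :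
    D.C1 g ∧ (∀ x, D.gr g x = G x) ∧
      ∀ j, ∀ z ∈ D.T j, Tendsto (fun n => fderiv ℝ (fun y => F n (D.ψ j y)) z) l
        (𝓝 (fderiv ℝ (fun y => g (D.ψ j y)) z)) := by
  classical
  have hB : ∀ j : Fin D.N, ∀ z : ℂ, ∃ B : ℂ →L[ℝ] ℂ, z ∈ D.T j → (∀ v, ‖B v‖ = ‖D.A j z v‖) ∧
      ∀ F : M → ℝ, D.C1 F →
      fderiv ℝ (fun y => F (D.ψ j y)) z = (innerSL ℝ (D.gr F (D.ψ j z))).comp B := by
    intro j z
    by_cases hz : z ∈ D.T j
    · obtain ⟨B, hB⟩ := exB hD j z hz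
      exact ⟨B, fun _ => hB⟩
    · exact ⟨0, fun h => absurd h hz⟩
  choose B hB using hB
  -- the limits of the differentials
  obtain ⟨h', hh'⟩ : ∃ h' : Fin D.N → ℂ → (ℂ →L[ℝ] ℝ), ∀ j z, h' j z = (innerSL ℝ (G (D.ψ j z))).comp (B j z) :=
    ⟨fun j z => (innerSL ℝ (G (D.ψ j z))).comp (B j z), fun _ _ => rfl⟩
  have hdist : ∀ j, ∀ z ∈ D.T j, ∀ n, ‖h' j z - fderiv ℝ (fun y => F n (D.ψ j y)) z‖ ≤
      ‖D.A j z‖ * ‖G (D.ψ j z) - D.gr (F n) (D.ψ j z)‖ := by
    intro j z hz n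
    rw [hh', ((hB j z hz).2 _ (hF n)), ← ContinuousLinearMap.sub_comp, ← map_sub]
    refine ContinuousLinearMap.opNorm_le_bound _ (by positivity) fun v => ?_
    rw [ContinuousLinearMap.comp_apply, innerSL_apply_apply]
    refine (norm_inner_le_norm _ _).trans ?_
    rw [(hB j z hz).1 v]
    have := (D.A j z).le_opNorm v
    calc ‖G (D.ψ j z) - D.gr (F n) (D.ψ j z)‖ * ‖D.A j z v‖
        ≤ ‖G (D.ψ j z) - D.gr (F n) (D.ψ j z)‖ * (‖D.A j z‖ * ‖v‖) := by gcongr
      _ = _ := by ring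
  have hloc : ∀ j, TendstoLocallyUniformlyOn (fun n z => fderiv ℝ (fun y => F n (D.ψ j y)) z) (h' j) l (D.T j) := by
    intro j
    rw [Metric.tendstoLocallyUniformlyOn_iff]
    intro ε hε z hz
    have hA : ContinuousAt (D.A j) z := (hD.contA j).continuousAt ((hD.openT j).mem_nhds hz)
    obtain ⟨K, hK⟩ : ∃ K : ℝ, ‖D.A j z‖ < K := ⟨‖D.A j z‖ + 1, by linarith⟩
    have hK0 : 0 < K := lt_of_le_of_lt (norm_nonneg _) hK
    have hev : ∀ᶠ y in 𝓝 z, ‖D.A j y‖ < K := hA.norm.eventually_lt_const hK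
    refine ⟨{y | ‖D.A j y‖ < K} ∩ D.T j, ?_, ?_⟩
    · exact Filter.inter_mem (mem_nhdsWithin_of_mem_nhds hev) self_mem_nhdsWithin
    · have h3 := (Metric.tendstoUniformly_iff.1 h2) (ε / K) (by positivity)
      filter_upwards [h3] with n hn
      rintro y ⟨hy1, hy2⟩
      rw [dist_eq_norm]
      refine lt_of_le_of_lt (hdist j y hy2 n) ?_
      have h4 := hn (D.ψ j y)
      rw [dist_eq_norm] at h4
      have hy1' : ‖D.A j y‖ < K := hy1
      calc ‖D.A j y‖ * ‖G (D.ψ j y) - D.gr (F n) (D.ψ j y)‖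
          ≤ K * ‖G (D.ψ j y) - D.gr (F n) (D.ψ j y)‖ := by gcongr
        _ < K * (ε / K) := by gcongr
        _ = ε := by field_simp
  have hder : ∀ j, ∀ z ∈ D.T j, HasFDerivAt (fun y => g (D.ψ j y)) (h' j z) z := by
    intro j z hz
    refine hasFDerivAt_of_tendstoLocallyUniformlyOn (hD.openT j) (hloc j) (fun n y hy => ?_)
      (fun y _ => h1 (D.ψ j y)) hz
    exact (((hF n j).contDiffAt ((hD.openT j).mem_nhds hy)).differentiableAt one_ne_zero).hasFDerivAt
  have hcont : ∀ j, ContinuousOn (h' j) (D.T j) := by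
    intro j
    refine (hloc j).continuousOn (Frequently.of_forall fun n => ?_)
    exact (hF n j).continuousOn_fderiv_of_isOpen (hD.openT j) le_rfl
  have hC1 : D.C1 g := by
    intro j
    rw [show (1 : WithTop ℕ∞) = 0 + 1 by simp, contDiffOn_succ_iff_fderiv_of_isOpen (hD.openT j)]
    refine ⟨fun z hz => (hder j z hz).differentiableAt.differentiableWithinAt, by simp, ?_⟩
    rw [contDiffOn_zero]
    exact (hcont j).congr fun z hz => (hder j z hz).fderiv
  have hlim : ∀ j, ∀ z ∈ D.T j, Tendsto (fun n => fderiv ℝ (fun y => F n (D.ψ j y)) z) l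
        (𝓝 (fderiv ℝ (fun y => g (D.ψ j y)) z)) := by
    intro j z hz
    rw [(hder j z hz).fderiv]
    exact (hloc j).tendsto_at hz
  refine ⟨hC1, fun x => ?_, hlim⟩
  obtain ⟨k, hk⟩ := pc_ex hD x
  have h3 : Tendsto (fun n => D.gr (F n) x) l (𝓝 (G x)) := h2.tendsto_at x
  have h4 : Tendsto (fun n => D.gr (F n) x) l (𝓝 (D.gr g x)) := by
    have h5 := hlim k _ (mem_T hk.1)
    have e : ∀ F : M → ℝ, D.gr F x =
        ((fderiv ℝ (fun y => F (D.ψ k y)) (D.φ k x) ((D.A k (D.φ k x)).inverse 1) : ℝ) : ℂ) +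
        ((fderiv ℝ (fun y => F (D.ψ k y)) (D.φ k x) ((D.A k (D.φ k x)).inverse Complex.I) : ℝ) : ℂ) * Complex.I := by
      intro F
      rw [gr_eq hk]
      unfold Data.gc Data.dc grd
      apply Complex.ext <;> simp
    simp only [e]
    have h6 : ∀ v : ℂ, Tendsto (fun n => ((fderiv ℝ (fun y => F n (D.ψ k y)) (D.φ k x) v : ℝ) : ℂ)) l
        (𝓝 ((fderiv ℝ (fun y => g (D.ψ k y)) (D.φ k x) v : ℝ) : ℂ)) := by
      intro v
      have h7 := ((ContinuousLinearMap.apply ℝ ℝ v).continuous.tendsto _).comp h5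
      exact (Complex.continuous_ofReal.tendsto _).comp h7
    exact (h6 _).add ((h6 _).mul_const _)
  exact tendsto_nhds_unique h4 h3

/-- the map into the complete space -/
def emb (D : Data M) (i : Fin D.N) (φ : C1sp D i) : C(M, ℝ) × (M →ᵤ ℂ) :=
  ((φ.1 : C(M, ℝ)), UniformFun.ofFun (D.gr φ.1))

theorem closed_range (hD : D.IsSurf μ) (i : Fin D.N) (hi : ∀ z : ℂ, ‖z‖ = 1 → z ∈ D.T i) :
    IsClosed (range (emb D i)) := by
  rw [← closure_subset_iff_isClosed]
  rintro ⟨g, G⟩ hp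
  have hne : NeBot (comap (emb D i) (𝓝 (g, G))) := by
    rw [mem_closure_iff_nhds] at hp
    rw [comap_neBot_iff]
    intro t ht
    obtain ⟨p, hp1, φ, rfl⟩ := hp t ht
    exact ⟨φ, hp1⟩
  have ht : Tendsto (emb D i) (comap (emb D i) (𝓝 (g, G))) (𝓝 (g, G)) := tendsto_comap
  rw [nhds_prod_eq, tendsto_prod_iff'] at ht
  obtain ⟨t1, t2⟩ := ht
  have u1 : ∀ x, Tendsto (fun φ : C1sp D i => φ.1 x) (comap (emb D i) (𝓝 (g, G))) (𝓝 (g x)) := by
    intro x
    have h1 : Tendsto (fun φ : C1sp D i => ((emb D i φ).1 : C(M, ℝ))) (comap (emb D i) (𝓝 (g, G))) (𝓝 g) := by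
      rw [nhds_prod_eq]
      exact t1
    exact ((continuous_eval_const (F := C(M, ℝ)) x).tendsto g).comp h1
  have u2 : TendstoUniformly (fun φ : C1sp D i => D.gr φ.1) (UniformFun.toFun G)
      (comap (emb D i) (𝓝 (g, G))) := by
    have h1 : Tendsto (fun φ : C1sp D i => (emb D i φ).2) (comap (emb D i) (𝓝 (g, G))) (𝓝 G) := by
      rw [nhds_prod_eq]
      exact t2
    exact UniformFun.tendsto_iff_tendstoUniformly.1 h1
  obtain ⟨v1, v2, v3⟩ := limit hD (F := fun φ : C1sp D i => (φ.1 : M → ℝ)) (fun φ => φ.2.1)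
    (g := fun x => g x) u1 u2
  refine ⟨⟨g, v1, fun z hz => ?_⟩, ?_⟩
  · have h1 := v3 i z (hi z hz)
    have h2 : (fun φ : C1sp D i => fderiv ℝ (fun y => φ.1 (D.ψ i y)) z) = fun _ => 0 := by
      funext φ
      exact φ.2.2 z hz
    rw [h2] at h1
    exact tendsto_nhds_unique h1 tendsto_const_nhds
  · unfold emb
    apply Prod.ext
    · rfl
    · show UniformFun.ofFun (D.gr g) = G
      have : D.gr g = UniformFun.toFun G := funext v2
      rw [this]
      rfl

theorem s_BAI1 : S_BAI1 := by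
  intro M _ _ _ _ μ D hD i hi
  have hcl := closed_range hD i hi
  let u : UniformSpace (C1sp D i) := UniformSpace.comap (emb D i) inferInstance
  have hind : IsUniformInducing (emb D i) := ⟨rfl⟩
  have hcomp : CompleteSpace (C1sp D i) := by
    rw [completeSpace_iff_isComplete_range hind]
    exact hcl.isComplete
  have hcg : IsCountablyGenerated (uniformity (C1sp D i)) := by
    rw [← hind.comap_uniformity]
    exact Filter.comap.isCountablyGenerated _ _
  have h1 : @TopologicalSpace.IsCompletelyPseudoMetrizableSpace (C1sp D i) u.toTopologicalSpace :=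
    inferInstance
  exact @BaireSpace.of_completelyPseudoMetrizable (C1sp D i) u.toTopologicalSpace h1

end Pool.Agent.L7h50.SB
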